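import Mathlib

set_option autoImplicit false

/-!
# An algebraic poset which is not weakly atomic

`K` is the set of the pairs `(n, s)`, `n` a natural number and `s` a rational number, with
`(n, s) < (m, t)` iff `n ≤ m` and `s < t`. In the algebraic poset of the ideals of `K` the ideals
`J c` of all pairs with `s < c` form an interval-closed dense chain.
-/

namespace Pool.Agent.Results.MP_e59eee_co.NotWeaklyAtomic

/-- `D` is directed: nonempty, and any two elements have an upper bound in `D`. -/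
def Directed' {P : Type} [PartialOrder P] (D : Set P) : Prop :=
  D.Nonempty ∧ ∀ a ∈ D, ∀ b ∈ D, ∃ c ∈ D, a ≤ c ∧ b ≤ c

/-- every directed subset has a least upper bound -/
def UpComplete (P : Type) [PartialOrder P] : Prop :=
  ∀ D : Set P, Directed' D → ∃ s, IsLUB D s

/-- `c` is compact -/
def Compact' {P : Type} [PartialOrder P] (c : P) : Prop :=
  ∀ D : Set P, Directed' D → ∀ s, IsLUB D s → c ≤ s → ∃ d ∈ D, c ≤ d

/-- `P` is up-complete and every element is the join of a directed set of compact elements -/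
def Algebraic (P : Type) [PartialOrder P] : Prop :=
  UpComplete P ∧ ∀ x : P, ∃ D : Set P, Directed' D ∧ (∀ c ∈ D, Compact' c) ∧ IsLUB D x

/-- every interval `[x, y]` with `x < y` contains a covering pair -/
def WeaklyAtomic (P : Type) [PartialOrder P] : Prop :=
  ∀ x y : P, x < y → ∃ u v : P, x ≤ u ∧ u < v ∧ v ≤ y ∧ ∀ w, ¬ (u < w ∧ w < v)

/-- the pairs -/
structure K where
  n : ℕ
  s : ℚ

theorem K.ext' {a b : K} (h : a.n = b.n) (h' : a.s = b.s) : a = b := by
  cases a; cases b; simp_all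

instance : PartialOrder K where
  le a b := a = b ∨ (a.n ≤ b.n ∧ a.s < b.s)
  le_refl a := Or.inl rfl
  le_trans a b c h h' := by
    rcases h with rfl | h
    · exact h'
    · rcases h' with rfl | h'
      · exact Or.inr h
      · exact Or.inr ⟨h.1.trans h'.1, h.2.trans h'.2⟩
  le_antisymm a b h h' := by
    rcases h with h | h
    · exact h
    · rcases h' with h' | h'
      · exact h'.symm
      · exact absurd (h.2.trans h'.2) (lt_irrefl _)

theorem K.le_def {a b : K} : a ≤ b ↔ a = b ∨ (a.n ≤ b.n ∧ a.s < b.s) := Iff.rfl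

/-! ### Ideals form an algebraic poset -/

/-- the union of a directed set of ideals -/
def joinI (D : Set (Order.Ideal K)) (hD : Directed' D) : Order.Ideal K where
  carrier := {k | ∃ I ∈ D, k ∈ I}
  lower' := by
    rintro a b hba ⟨I, hI, ha⟩
    exact ⟨I, hI, I.lower hba ha⟩
  nonempty' := by
    obtain ⟨I, hI⟩ := hD.1
    obtain ⟨k, hk⟩ := I.nonempty
    exact ⟨k, I, hI, hk⟩
  directed' := by
    rintro a ⟨I, hI, ha⟩ b ⟨J, hJ, hb⟩
    obtain ⟨M, hM, hIM, hJM⟩ := hD.2 I hI J hJ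
    obtain ⟨c, hc, hac, hbc⟩ := M.directed a (hIM ha) b (hJM hb)
    exact ⟨c, ⟨M, hM, hc⟩, hac, hbc⟩

theorem mem_joinI {D : Set (Order.Ideal K)} {hD : Directed' D} {k : K} :
    k ∈ joinI D hD ↔ ∃ I ∈ D, k ∈ I := Iff.rfl

theorem isLUB_joinI (D : Set (Order.Ideal K)) (hD : Directed' D) : IsLUB D (joinI D hD) := by
  refine ⟨fun I hI k hk => ⟨I, hI, hk⟩, fun M hM => ?_⟩
  rintro k ⟨I, hI, hk⟩
  exact hM hI hk

theorem compact_principal (k : K) : Compact' (Order.Ideal.principal k) := by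
  intro D hD s hs hle
  have h1 : s = joinI D hD := hs.unique (isLUB_joinI D hD)
  have h2 : k ∈ s := hle (Order.Ideal.mem_principal.2 le_rfl)
  rw [h1] at h2
  obtain ⟨I, hI, hk⟩ := h2
  exact ⟨I, hI, fun j hj => I.lower (Order.Ideal.mem_principal.1 hj) hk⟩

theorem algebraic : Algebraic (Order.Ideal K) := by
  refine ⟨fun D hD => ⟨_, isLUB_joinI D hD⟩, fun x => ?_⟩
  refine ⟨{I | ∃ k ∈ x, I = Order.Ideal.principal k}, ⟨?_, ?_⟩, ?_, ?_⟩
  · obtain ⟨k, hk⟩ := x.nonempty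
    exact ⟨_, k, hk, rfl⟩
  · rintro _ ⟨a, ha, rfl⟩ _ ⟨b, hb, rfl⟩
    obtain ⟨c, hc, hac, hbc⟩ := x.directed a ha b hb
    exact ⟨_, ⟨c, hc, rfl⟩, Order.Ideal.principal_le_iff.2 (Order.Ideal.mem_principal.2 hac),
      Order.Ideal.principal_le_iff.2 (Order.Ideal.mem_principal.2 hbc)⟩
  · rintro _ ⟨k, _, rfl⟩
    exact compact_principal k
  · refine ⟨?_, fun M hM k hk => ?_⟩
    · rintro _ ⟨k, hk, rfl⟩
      exact Order.Ideal.principal_le_iff.2 hk
    · exact hM ⟨k, hk, rfl⟩ (Order.Ideal.mem_principal.2 le_rfl)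

/-! ### The dense chain -/

/-- all pairs with second coordinate below `c` -/
def J (c : ℝ) : Order.Ideal K where
  carrier := {k | (k.s : ℝ) < c}
  lower' := by
    intro a b hba ha
    rcases hba with rfl | h
    · exact ha
    · have h1 : (b.s : ℝ) < a.s := by exact_mod_cast h.2
      exact lt_trans h1 ha
  nonempty' := by
    obtain ⟨q, hq⟩ := exists_rat_lt c
    exact ⟨⟨0, q⟩, hq⟩
  directed' := by
    intro a ha b hb
    obtain ⟨q, hq1, hq2⟩ := exists_rat_btwn (max_lt (show (a.s : ℝ) < c from ha) hb)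
    refine ⟨⟨max a.n b.n, q⟩, hq2, Or.inr ⟨le_max_left _ _, ?_⟩, Or.inr ⟨le_max_right _ _, ?_⟩⟩
    · exact_mod_cast (le_max_left _ _).trans_lt hq1
    · exact_mod_cast (le_max_right _ _).trans_lt hq1

theorem mem_J {c : ℝ} {k : K} : k ∈ J c ↔ (k.s : ℝ) < c := Iff.rfl

theorem J_le {c d : ℝ} (h : c ≤ d) : J c ≤ J d := fun _ hk => lt_of_lt_of_le hk h

theorem J_lt {c d : ℝ} (h : c < d) : J c < J d := by
  refine lt_of_le_of_ne (J_le h.le) fun he => ?_
  obtain ⟨q, hq1, hq2⟩ := exists_rat_btwn h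
  have : (⟨0, q⟩ : K) ∈ J d := hq2
  rw [← he] at this
  exact absurd (mem_J.1 this) (not_lt.2 hq1.le)

/-- an ideal which contains `J a` and an element `k` contains a larger element above any given
first coordinate -/
theorem exists_above {a : ℝ} {I : Order.Ideal K} (h : J a ≤ I) {k : K} (hk : k ∈ I) (N : ℕ) :
    ∃ l ∈ I, N ≤ l.n ∧ k.s < l.s := by
  obtain ⟨q, hq⟩ := exists_rat_lt (min a k.s)
  have h1 : (⟨max N (k.n + 1), q⟩ : K) ∈ I := h (lt_of_lt_of_le hq (min_le_left _ _))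
  obtain ⟨l, hl, h2, h3⟩ := I.directed _ h1 _ hk
  have h4 : q < k.s := by exact_mod_cast lt_of_lt_of_le hq (min_le_right _ _)
  have hn : max N (k.n + 1) ≤ l.n := by
    rcases h2 with h2 | h2
    · rw [← h2]
    · exact h2.1
  refine ⟨l, hl, (le_max_left _ _).trans hn, ?_⟩
  rcases h3 with h3 | h3
  · have := (le_max_right N (k.n + 1)).trans hn
    rw [← h3] at this
    omega
  · exact h3.2

/-- the ideals between `J a` and `J b` are the `J c` with `a ≤ c ≤ b` -/
theorem eq_J {a b : ℝ} {I : Order.Ideal K} (h : J a ≤ I) (h' : I ≤ J b) :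
    ∃ c, I = J c := by
  have hbdd : BddAbove {r : ℝ | ∃ k ∈ I, r = k.s} := by
    refine ⟨b, ?_⟩
    rintro _ ⟨k, hk, rfl⟩
    exact (mem_J.1 (h' hk)).le
  have hne : {r : ℝ | ∃ k ∈ I, r = k.s}.Nonempty := by
    obtain ⟨k, hk⟩ := I.nonempty
    exact ⟨k.s, k, hk, rfl⟩
  refine ⟨sSup {r : ℝ | ∃ k ∈ I, r = k.s}, le_antisymm (fun k hk => ?_) fun k hk => ?_⟩
  · obtain ⟨l, hl, _, hlt⟩ := exists_above h hk 0
    have h1 : (k.s : ℝ) < l.s := by exact_mod_cast hlt
    exact lt_of_lt_of_le h1 (le_csSup hbdd ⟨l, hl, rfl⟩)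
  · obtain ⟨_, ⟨l, hl, rfl⟩, hlt⟩ := exists_lt_of_lt_csSup hne hk
    obtain ⟨m, hm, hmn, hms⟩ := exists_above h hl k.n
    refine I.lower (Or.inr ⟨hmn, ?_⟩) hm
    have : k.s < l.s := by exact_mod_cast hlt
    exact this.trans hms

/-- There is an algebraic poset `P` with two elements `x < y` such that the interval `[x, y]` is
order isomorphic to the real interval `[0, 1]`; in particular `P` is not weakly atomic. -/
theorem result : ∃ (P : Type) (_ : PartialOrder P), Algebraic P ∧ ¬ WeaklyAtomic P ∧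
    ∃ x y : P, x < y ∧ Nonempty (Set.Icc x y ≃o Set.Icc (0 : ℝ) 1) := by
  refine ⟨Order.Ideal K, inferInstance, algebraic, fun hw => ?_, J 0, J 1, J_lt one_pos, ?_⟩
  · obtain ⟨u, v, hu, huv, hv, hcov⟩ := hw (J 0) (J 1) (J_lt one_pos)
    obtain ⟨c, rfl⟩ := eq_J hu (huv.le.trans hv)
    obtain ⟨d, rfl⟩ := eq_J (hu.trans huv.le) hv
    have hcd : c < d := by
      by_contra h
      exact absurd (J_le (not_lt.1 h)) (not_le_of_gt huv)
    obtain ⟨w, hw1, hw2⟩ := exists_between hcd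
    exact hcov (J w) ⟨J_lt hw1, J_lt hw2⟩
  · have hmono : ∀ c d : ℝ, J c ≤ J d ↔ c ≤ d := fun c d =>
      ⟨fun h => not_lt.1 fun hlt => absurd h (not_le_of_gt (J_lt hlt)), J_le⟩
    have e : Set.Icc (0 : ℝ) 1 ≃o Set.Icc (J 0) (J 1) := by
      refine StrictMono.orderIsoOfSurjective
        (fun c => ⟨J c.1, J_le c.2.1, J_le c.2.2⟩) (fun c d h => J_lt h) ?_
      rintro ⟨I, h0, h1⟩
      obtain ⟨c, rfl⟩ := eq_J h0 h1
      exact ⟨⟨c, (hmono _ _).1 h0, (hmono _ _).1 h1⟩, rfl⟩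
    exact ⟨e.symm⟩

end Pool.Agent.Results.MP_e59eee_co.NotWeaklyAtomic
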